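import Pool.Agent.Run7.h527.TP.Cb
import Pool.Agent.Results.MP_a41896_nt.MultiplicativeValues

/-!
# Vojta's conjecture for root stacks of projective spaces at all heights near aliquot sums and arithmetic derivatives

Let `a_0, …, a_{r-1}` be linear forms in `n + 1` variables over a number field `K`, any `n + 1` of them linearly
independent, and let `f(m)` be the sum of the proper divisors of `m`, the cototient `m - φ(m)`, the arithmetic derivative `m'`
(with `p' = 1` for primes and Leibniz' rule), or any positive combination `a m + b h(m)` with `h = σ`, `φ` or the arithmetic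
derivative. Let `α > 0`, `d ≥ 1`, `κ ≥ 0` and `d exponent(n, r, κ) / (n + 1) + θ < τ ≤ 1`. For all `m ≤ N` which have two prime
factors `p ≠ q`, not dividing `m / (p q) ≥ 2`, with `p q ≥ m^τ`, but at most `N^(1 - η)` of them, for ALL points
`x ∈ ℙ^n(K)` off the hyperplanes with `|H_K(x) ^ (n + 1) - α f(m) ^ d| ≤ f(m) ^ θ`, ALL number fields `L ⊇ K`, ALL orders
`e_i` such that `x` comes from an integral point over `L` of the root stack of order `e_i` along `H_i`, and ALL sets `J` of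
indices the inequality `(κ - ∑_{i ∉ J} 1 / e_i) h(x) ≤ N^{(1)}(𝒟_J, x) + d(L) - c` holds. Consequently: for every `ε > 0` there
are `κ > 0` and `θ > 0` (depending on `n`, `d`, `ε` only) such that this holds for ALL `m ≤ N` but `ε N`.

Proof. Write `m = k p q`. Then `f(m) = a p q + b (p + q) + c` with integers `a ≠ 0`, `b`, `c` which depend on `k` only, and
`(a p + b) (a q + b) = a f(m) + b² - a c`. So for given `k ≤ N^(1 - τ)` every value is taken for at most `N^ε` pairs `p`, `q`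
(the tool `Run7/h527/TP`), and the exceptional points are few by the starting theorem `StackyProjectiveSpaces`. For small `τ`
all but `ε N` integers have two such primes, by the second moment of the number of the prime factors in
`(N^(τ / 2), N^(1 / 8))`.
-/

set_option autoImplicit false

namespace Pool.Agent.Results.MP_a41896_nt.AliquotSums

open NumberField IsDedekindDomain LinearAlgebra.Projectivization
open Pool.Agent.N733.TG (Expanding expanding_pow)
open StackyProjectiveSpaces (lin height truncated Integral logDisc exponent exceptional)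
open Pool.Agent.Results.MP_a41896_nt.MultiplicativeValues (Vojta)
open Run7.h527.TP (Bil Two windows density combine aliquot cototient deriv sig comb)

/-- **Theorem.** Let `K` be a number field, `n ≥ 1`, `r ≥ n + 1`, `a_0, …, a_{r-1}` linear forms in `n + 1` variables
over `K`, any `n + 1` of them linearly independent, `S` a finite set of primes, `κ ≥ 0`. (The exponent `exponent(n, r, κ)`
is smaller than `n + 1` for `κ < r`.) Let `f` be of the class `Bil`, let `G` have steps `≥ a > 0` and growth at most `v ^ d`.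
Let `θ ≥ 0` and `d exponent(n, r, κ) / (n + 1) + θ < τ ≤ 1`. For every `c` there is `η > 0` such that for all large `N`, for
all `m ≤ N` with `Two τ m` but at most `N^(1 - η)`, ALL points `x ∈ ℙ^n(K)` off the hyperplanes with
`|H_K(x) ^ (n + 1) - G (f m)| ≤ f(m) ^ θ` satisfy the inequality, for all `L`, all `e` and all `J`. For `ε > 0` there are
`κ > 0` and `θ > 0` such that for all these `K`, `r`, `a`, `S`, `f`, `G` and all `c` this holds for all `m ≤ N` but `ε N`. The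
sum of the proper divisors, the cototient, the arithmetic derivative and their positive combinations with the identity are examples of such
functions `f`, and `α v ^ d` with `α > 0`, `d ≥ 1` is an example of `G`. -/
theorem result :
    (∀ (K : Type) [Field K] [NumberField K] (n r : ℕ), 1 ≤ n → n + 1 ≤ r → ∀ a : Fin r → Fin (n + 1) → K,
      (∀ I : Finset (Fin r), I.card = n + 1 → LinearIndependent K (fun i : I => a i)) →
      ∀ (S : Finset (HeightOneSpectrum (𝓞 K))) (κ : ℝ), 0 ≤ κ →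
      (κ < r → exponent n r κ < n + 1) ∧
      ∀ f : ℕ → ℕ, Bil f → ∀ (G : ℕ → ℝ) (d : ℝ), Expanding G d → ∀ θ τ : ℝ, 0 ≤ θ →
        d * (exponent n r κ / (n + 1)) + θ < τ → τ ≤ 1 → ∀ c : ℝ, ∃ η : ℝ, 0 < η ∧ ∃ N₀ : ℕ, ∀ N : ℕ, N₀ ≤ N →
        ({m : ℕ | 1 ≤ m ∧ m ≤ N ∧ Two τ m ∧ ¬ ∀ x : ℙ K (Fin (n + 1) → K), (∀ i, lin (a i) x.rep ≠ 0) →
          |x.mulHeight ^ (n + 1) - G (f m)| ≤ (f m : ℝ) ^ θ → Vojta S a κ c x}.ncard : ℝ) ≤ (N : ℝ) ^ (1 - η)) ∧
    (∀ (n : ℕ) (d ε : ℝ), 1 ≤ n → 1 ≤ d → 0 < ε → ∃ κ θ : ℝ, 0 < κ ∧ 0 < θ ∧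
      ∀ (K : Type) [Field K] [NumberField K] (r : ℕ), n + 1 ≤ r → ∀ a : Fin r → Fin (n + 1) → K,
      (∀ I : Finset (Fin r), I.card = n + 1 → LinearIndependent K (fun i : I => a i)) →
      ∀ (S : Finset (HeightOneSpectrum (𝓞 K))) (f : ℕ → ℕ), Bil f → ∀ G : ℕ → ℝ, Expanding G d →
        ∀ c : ℝ, ∃ N₀ : ℕ, ∀ N : ℕ, N₀ ≤ N →
        ({m : ℕ | 1 ≤ m ∧ m ≤ N ∧ ¬ ∀ x : ℙ K (Fin (n + 1) → K), (∀ i, lin (a i) x.rep ≠ 0) →
          |x.mulHeight ^ (n + 1) - G (f m)| ≤ (f m : ℝ) ^ θ → Vojta S a κ c x}.ncard : ℝ) ≤ ε * N) ∧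
    (Bil aliquot ∧ Bil cototient ∧ Bil deriv ∧
      (∀ α β : ℤ, (∀ m : ℕ, 2 ≤ m → 0 < α * m + β * sig m) → Bil (comb α β sig)) ∧
      (∀ α β : ℤ, (∀ m : ℕ, 2 ≤ m → 0 < α * m + β * Nat.totient m) → Bil (comb α β Nat.totient)) ∧
      ∀ α β : ℤ, (∀ m : ℕ, 2 ≤ m → 0 < α * m + β * deriv m) → Bil (comb α β deriv)) ∧
    ∀ α d : ℝ, 0 < α → 1 ≤ d → Expanding (fun v => α * (v : ℝ) ^ d) d := by
  have one : ∀ (K : Type) [Field K] [NumberField K] (n r : ℕ), 1 ≤ n → n + 1 ≤ r → ∀ a : Fin r → Fin (n + 1) → K,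
      (∀ I : Finset (Fin r), I.card = n + 1 → LinearIndependent K (fun i : I => a i)) →
      ∀ (S : Finset (HeightOneSpectrum (𝓞 K))) (κ : ℝ), 0 ≤ κ →
      ∀ f : ℕ → ℕ, Bil f → ∀ (G : ℕ → ℝ) (d : ℝ), Expanding G d → ∀ θ τ : ℝ, 0 ≤ θ →
        d * (exponent n r κ / (n + 1)) + θ < τ → τ ≤ 1 → ∀ c : ℝ, ∃ η : ℝ, 0 < η ∧ ∃ N₀ : ℕ, ∀ N : ℕ, N₀ ≤ N →
        ({m : ℕ | 1 ≤ m ∧ m ≤ N ∧ Two τ m ∧ ¬ ∀ x : ℙ K (Fin (n + 1) → K), (∀ i, lin (a i) x.rep ≠ 0) →
          |x.mulHeight ^ (n + 1) - G (f m)| ≤ (f m : ℝ) ^ θ → Vojta S a κ c x}.ncard : ℝ) ≤ (N : ℝ) ^ (1 - η) := by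
    intro K _ _ n r hn hr a ha S κ hκ f hf G d hG θ τ hθ h1 hτ c
    have hs : 0 ≤ exponent n r κ / (n + 1) := div_nonneg (StackyWindows.expo_nonneg hn hr hκ) (by positivity)
    obtain ⟨η, hη, N₀, hN₀⟩ := windows (⋃ B : ℝ, exceptional S a κ (-c) B) (fun x => x.mulHeight ^ (n + 1)) hf hG hs hθ h1
      hτ (fun ε hε => StackyWindows.count K hn hr a ha S κ (-c) ε hκ hε)
    refine ⟨η, hη, N₀, fun N hN => le_trans ?_ (hN₀ N hN)⟩
    have hsub : {m : ℕ | 1 ≤ m ∧ m ≤ N ∧ Two τ m ∧ ¬ ∀ x : ℙ K (Fin (n + 1) → K), (∀ i, lin (a i) x.rep ≠ 0) →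
        |x.mulHeight ^ (n + 1) - G (f m)| ≤ (f m : ℝ) ^ θ → Vojta S a κ c x} ⊆
        {m : ℕ | 1 ≤ m ∧ m ≤ N ∧ Two τ m ∧ ∃ t ∈ (⋃ B : ℝ, exceptional S a κ (-c) B),
          |t.mulHeight ^ (n + 1) - G (f m)| ≤ (f m : ℝ) ^ θ} := by
      rintro m ⟨h2, h3, h3', h4⟩
      refine ⟨h2, h3, h3', ?_⟩
      simp only [not_forall] at h4
      obtain ⟨x, hx, hw, hV⟩ := h4
      unfold Vojta at hV
      simp only [not_forall] at hV
      obtain ⟨L, i1, i2, i3, e, J, he, hint, hneg⟩ := hV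
      refine ⟨x, Set.mem_iUnion.2 ⟨Real.exp (height x), hx, le_refl _, L, i1, i2, i3, e, J, he, hint, ?_⟩, hw⟩
      rw [not_le] at hneg
      linarith
    have hfin : {m : ℕ | 1 ≤ m ∧ m ≤ N ∧ Two τ m ∧ ∃ t ∈ (⋃ B : ℝ, exceptional S a κ (-c) B),
        |t.mulHeight ^ (n + 1) - G (f m)| ≤ (f m : ℝ) ^ θ}.Finite :=
      (Set.finite_Icc 1 N).subset fun m hm => ⟨hm.1, hm.2.1⟩
    exact_mod_cast Set.ncard_le_ncard hsub hfin
  refine ⟨fun K _ _ n r hn hr a ha S κ hκ => ⟨fun h => StackyWindows.expo_lt hn hr h,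
    fun f hf G d hG θ τ hθ h1 hτ c => one K n r hn hr a ha S κ hκ f hf G d hG θ τ hθ h1 hτ c⟩,
    fun n d ε hn hd hε => ?_, Run7.h527.TP.examples, fun α d hα hd => expanding_pow hα hd⟩
  obtain ⟨τ, hτ0, hτ1, hden⟩ := density (ε / 2) (by positivity)
  have hκ0 : 0 < τ * (n + 1) / (4 * d) := by positivity
  refine ⟨τ * (n + 1) / (4 * d), τ / 2, hκ0, by linarith, fun K _ _ r hr a ha S f hf G hG c => ?_⟩
  have hs : d * (exponent n r (τ * (n + 1) / (4 * d)) / (n + 1)) + τ / 2 < τ := by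
    have h1 : exponent n r (τ * (n + 1) / (4 * d)) ≤ τ * (n + 1) / (4 * d) := by
      unfold exponent
      refine (min_le_left _ _).trans ?_
      have h2 : (0 : ℝ) ≤ ((r - n).choose (n + 1) : ℝ) / (r.choose (n + 1) : ℝ) := by positivity
      have h3 : 1 - ((r - n).choose (n + 1) : ℝ) / (r.choose (n + 1) : ℝ) ≤ 1 := by linarith
      exact (mul_le_mul_of_nonneg_left h3 hκ0.le).trans (le_of_eq (mul_one _))
    have h2 : exponent n r (τ * (n + 1) / (4 * d)) / (n + 1) ≤ τ / (4 * d) := by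
      rw [div_le_iff₀ (by positivity)]
      refine h1.trans (le_of_eq ?_)
      ring
    have h3 := mul_le_mul_of_nonneg_left h2 (by linarith : 0 ≤ d)
    have h4 : d * (τ / (4 * d)) = τ / 4 := by field_simp
    linarith
  exact combine hε hden _ (one K n r hn hr a ha S _ hκ0.le f hf G d hG (τ / 2) τ (by linarith) hs hτ1 c)

end Pool.Agent.Results.MP_a41896_nt.AliquotSums
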