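import Pool.Agent.Run7.h702.CT.C
import Pool.Agent.Results.MP_a41896_nt.MultiplicativeValues

/-!
# Vojta's conjecture for root stacks of projective spaces at heights near ALL the terms of almost every Collatz trajectory

Let `a_0, …, a_{r-1}` be linear forms in `n + 1` variables over a number field `K`, any `n + 1` of them linearly independent,
`κ ≥ 0`, `α > 0`, `d ≥ 1` and `d exponent(n, r, κ) / (n + 1) + θ < 1`. There is `η > 0` such that for every `B` there is `K'`
with: for all `Y ≥ 2` and `N`, for all `m ≤ N` but at most `K' N / (log Y) ^ B`, the trajectory of `m` under the Collatz map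
(`n / 2`, `3 n + 1`) has a value smaller than `Y`, and for EVERY term `v` before it, ALL `1 ≤ b ≤ v ^ η` and ALL points
`x ∈ ℙ^n(K)` off the hyperplanes with `|H_K(x) ^ (n + 1) - b α v ^ d| ≤ v ^ (θ + η)`, ALL number fields `L ⊇ K`, ALL orders
`e_i` such that `x` comes from an integral point over `L` of the root stack of order `e_i` along `H_i`, and ALL sets `J` of
indices the inequality `(κ - ∑_{i ∉ J} 1 / e_i) h(x) ≤ N^{(1)}(𝒟_J, x) + d(L) - c` holds. So if `F` tends to infinity, however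
slowly, then for almost every `m` this holds for all the terms of the trajectory of `m` down to its first value `< F m`. More
generally `G v` takes the place of `α v ^ d`, where `G` is any function with steps bounded below by a positive constant and
growth at most `v ^ d`.

The terms of the trajectory of a random integer are not distributed like random integers of their size. The tool is the
avoidance of thin sets by all the terms of almost every trajectory (starting theorem; Tao's theorem in natural density), in the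
form of `Run7/h702/CT` (multiples and windows).
-/

set_option autoImplicit false

namespace Pool.Agent.Results.MP_a41896_nt.CollatzTerms

open NumberField IsDedekindDomain LinearAlgebra.Projectivization Filter Topology
open StackyProjectiveSpaces (lin height truncated Integral logDisc exponent exceptional)
open MultiplicativeValues (Vojta)

/-- The Collatz map. -/
def collatz (n : ℕ) : ℕ := if n % 2 = 0 then n / 2 else 3 * n + 1

/-- The trajectory of `m` takes a value smaller than `Y`, and EVERY term `v` before it has the property `P`. -/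
def AllTerms (P : ℕ → Prop) (Y : ℝ) (m : ℕ) : Prop :=
  ∃ k : ℕ, ((collatz^[k] m : ℕ) : ℝ) < Y ∧ ∀ j < k, P (collatz^[j] m)

/-- `P` holds for all the terms of almost every trajectory: (1) for every `B` there is `K` such that `AllTerms P Y m` holds, for
all `Y ≥ 2` and `N`, for all the `m ∈ [1, N]` but at most `K N / (log Y)^B`; (2) for every function `F` which tends to infinity
the density of the `m` with `AllTerms P (F m) m` is `1`. -/
def OnAllTerms (P : ℕ → Prop) : Prop :=
  (∀ B : ℕ, ∃ K : ℝ, ∀ Y : ℝ, 2 ≤ Y → ∀ N : ℕ,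
    (Set.ncard {m : ℕ | 1 ≤ m ∧ m ≤ N ∧ ¬ AllTerms P Y m} : ℝ) ≤ K * N / Real.log Y ^ B) ∧
  ∀ F : ℕ → ℝ, Tendsto F atTop atTop →
    Tendsto (fun N : ℕ => (Set.ncard {m : ℕ | 1 ≤ m ∧ m ≤ N ∧ AllTerms P (F m) m} : ℝ) / N) atTop (𝓝 1)

/-- The steps of `G` are at least a positive constant, and `G` grows at most like `v ^ d`, `d ≥ 1`. -/
structure Expanding (G : ℕ → ℝ) (d : ℝ) : Prop where
  one_le : 1 ≤ d
  step : ∃ a : ℝ, 0 < a ∧ ∀ v : ℕ, 1 ≤ v → a ≤ G (v + 1) - G v
  growth : ∃ C : ℝ, ∀ v : ℕ, 1 ≤ v → G v ≤ C * (v : ℝ) ^ d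

/-- `x` is near one of the small multiples of `G v`. -/
def Near (G : ℕ → ℝ) (κ η : ℝ) (v : ℕ) (x : ℝ) : Prop :=
  ∃ a : ℕ, 1 ≤ a ∧ (a : ℝ) ≤ (v : ℝ) ^ η ∧ |x - a * G v| ≤ (v : ℝ) ^ (κ + η)

theorem ex_of {G : ℕ → ℝ} {d : ℝ} (h : Expanding G d) : Pool.Agent.N733.TG.Expanding G d := ⟨h.one_le, h.step, h.growth⟩

theorem ex_pow {a d : ℝ} (ha : 0 < a) (hd : 1 ≤ d) : Expanding (fun v => a * (v : ℝ) ^ d) d := by
  obtain ⟨h1, h2, h3⟩ := Pool.Agent.N733.TG.expanding_pow ha hd
  exact ⟨h1, h2, h3⟩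

theorem on_of {P : ℕ → Prop} (h : Run7.h702.CT.OnAllTerms P) : OnAllTerms P := h

/-- **Vojta's conjecture for root stacks at heights near all the terms of almost every Collatz trajectory.** -/
theorem result :
    (∀ (K : Type) [Field K] [NumberField K] (n r : ℕ), 1 ≤ n → n + 1 ≤ r → ∀ a : Fin r → Fin (n + 1) → K,
      (∀ I : Finset (Fin r), I.card = n + 1 → LinearIndependent K (fun i : I => a i)) →
      ∀ (S : Finset (HeightOneSpectrum (𝓞 K))) (κ : ℝ), 0 ≤ κ →
      (κ < r → exponent n r κ < n + 1) ∧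
      ∀ (G : ℕ → ℝ) (d : ℝ), Expanding G d → ∀ θ : ℝ, 0 ≤ θ →
        d * (exponent n r κ / (n + 1)) + θ < 1 → ∀ c : ℝ, ∃ η : ℝ, 0 < η ∧
        OnAllTerms (fun v => ∀ x : ℙ K (Fin (n + 1) → K), (∀ i, lin (a i) x.rep ≠ 0) →
          Near G θ η v (x.mulHeight ^ (n + 1)) → Vojta S a κ c x)) ∧
    ∀ α d : ℝ, 0 < α → 1 ≤ d → Expanding (fun v => α * (v : ℝ) ^ d) d := by
  refine ⟨fun K _ _ n r hn hr a ha S κ hκ => ⟨fun h => StackyWindows.expo_lt hn hr h,
    fun G d hG θ hθ h1 c => ?_⟩, fun α d hα hd => ex_pow hα hd⟩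
  have hs : 0 ≤ exponent n r κ / (n + 1) := div_nonneg (StackyWindows.expo_nonneg hn hr hκ) (by positivity)
  obtain ⟨η, hη, h2⟩ := Run7.h702.CT.good (fun _ : ℙ K (Fin (n + 1) → K) => True)
    (fun x => x ∉ ⋃ B : ℝ, exceptional S a κ (-c) B) (fun x => x.mulHeight ^ (n + 1)) (ex_of hG) hs hθ h1
    (fun ε hε => by
      obtain ⟨C, hC⟩ := StackyWindows.count K hn hr a ha S κ (-c) ε hκ hε
      refine ⟨C, fun X hX => ?_⟩
      have e : {t : ℙ K (Fin (n + 1) → K) | (True ∧ ¬ t ∉ ⋃ B : ℝ, exceptional S a κ (-c) B) ∧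
          t.mulHeight ^ (n + 1) ≤ X} = {t | t ∈ ⋃ B : ℝ, exceptional S a κ (-c) B ∧ t.mulHeight ^ (n + 1) ≤ X} := by
        ext t
        constructor
        · rintro ⟨⟨_, g1⟩, g2⟩
          exact ⟨not_not.1 g1, g2⟩
        · rintro ⟨g1, g2⟩
          exact ⟨⟨trivial, not_not.2 g1⟩, g2⟩
      rw [e]
      exact hC X hX)
  refine ⟨η, hη, on_of (h2.imp (fun v hv x hx hN => ?_))⟩
  obtain ⟨b, hb1, hb2, hb3⟩ := hN
  by_contra hV
  unfold Vojta at hV
  simp only [not_forall] at hV
  obtain ⟨L, i1, i2, i3, e, J, he, hint, hneg⟩ := hV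
  refine hv b hb1 hb2 x trivial hb3
    (Set.mem_iUnion.2 ⟨Real.exp (height x), hx, le_refl _, L, i1, i2, i3, e, J, he, hint, ?_⟩)
  rw [not_le] at hneg
  linarith

end Pool.Agent.Results.MP_a41896_nt.CollatzTerms
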