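import Mathlib
import Pool.Agent.Run7.h742.SZ.St

/-! # Root stacks of projective spaces along arbitrary hypersurfaces: integral points over all
number fields above almost all integral points of affine space

Let `P_i = 0` be distinct hypersurfaces `D_i` of degree `k_i` of `ℙ^n` over `ℚ`, different from the
hyperplane at infinity `H_∞`, and let `𝒳` be the root stack of `ℙ^n` of order `e_i` along `D_i` for all
`i`, `𝒟_J` the sum of the stacky divisors above the `D_i`, `i ∈ J`. Then `K_𝒳 + 𝒟_J` is the pullback of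
`K + ∑_{i ∈ J} D_i + ∑_{i ∉ J} (1 - 1 / e_i) D_i`, of degree
`∑_{i ∈ J} k_i + ∑_{i ∉ J} (1 - 1 / e_i) k_i - (n + 1)`.

Let `L` be a number field and `x ∈ ℙ^n(ℚ)` off the `D_i`, with coprime integer coordinates. Then `x`
comes from an integral point of `𝒳` over the ring of `S`-integers of `L` if for every prime `w` of `L`
not above `S` and all `i` the intersection number of `x` and `D_i` at `w`, that is `w (P_i (x))`, is
divisible by `e_i`; every `x` comes from integral points over infinitely many `L`.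

We prove that for almost all integral points `x` of affine space (and almost all points with
denominators in any given set), for ALL number fields `L`, ALL orders `e_i` and ALL finite sets `S` of
primes such that `x` comes from an integral point, and ALL `J`, the inequality of Vojta's conjecture
for stacks with discriminant term holds if `∑ max (k_i - 2, 0) ≤ n + 1` (and for the divisor
`H_∞ + 𝒟_J` if `∑ max (k_i - 2, 0) ≤ n`), with `(n + 1 - ∑ max (k_i - 2, 0)) h(x)` to spare. The
exceptional set is the same for all the stacks. -/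

set_option autoImplicit false

namespace Pool.Agent.Results.MP_a41896_nt.IntegralPointsAllFields

open MvPolynomial NumberField IsDedekindDomain

/-- `max |x_j|` -/
def H {n : ℕ} (x : Fin (n + 1) → ℤ) : ℕ := Finset.univ.sup fun j => (x j).natAbs

/-- the logarithmic height of the point with the coprime integer coordinates `x` -/
noncomputable def height {n : ℕ} (x : Fin (n + 1) → ℤ) : ℝ := Real.log (H x)

/-- the rational points of the affine space `𝔸^n = ℙ^n ∖ {x 0 = 0}` with denominator in `M` and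
with `H x ≤ B`: the point `(x 1 / x 0, …, x n / x 0)` is given by its coprime integer coordinates
with `x 0 > 0`, and `x 0` is its denominator. `M = {1}`: the integral points; `M` the set of the
natural numbers composed of primes in `S`: the `S`-integral points; `M = ℕ`: all rational points -/
def Points (n : ℕ) (M : Set ℕ) (B : ℕ) : Set (Fin (n + 1) → ℤ) :=
  {x | Finset.univ.gcd x = 1 ∧ 0 < x 0 ∧ (x 0).toNat ∈ M ∧ H x ≤ B}

/-- `P j = 0` are distinct hypersurfaces of degree `k j`, irreducible over `ℚ`, none of which is the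
hyperplane `x 0 = 0` -/
structure IsDivisor {n q : ℕ} (P : Fin q → MvPolynomial (Fin (n + 1)) ℤ) (k : Fin q → ℕ) :
    Prop where
  hP : ∀ j, (P j).IsHomogeneous (k j)
  irreducible : ∀ j, Irreducible (map (Int.castRingHom ℚ) (P j))
  distinct : ∀ i j, i ≠ j →
    ¬ Associated (map (Int.castRingHom ℚ) (P i)) (map (Int.castRingHom ℚ) (P j))
  affine : ∀ j, ¬ Associated (map (Int.castRingHom ℚ) (P j)) (X 0)

/-- the prime `w` of `L` is not above a prime in `S` -/
def Outside {L : Type} [Field L] [NumberField L] (S : Finset ℕ) (w : HeightOneSpectrum (𝓞 L)) :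
    Prop := ∀ p ∈ S, (p : 𝓞 L) ∉ w.asIdeal

/-- The point `x` comes from an integral point over the `S`-integers of `L` of the root stack with
orders `e i` along `P i = 0`: the intersection numbers `w (P i (x))` outside `S` are divisible by
`e i`. -/
def Integral {n q : ℕ} (S : Finset ℕ) (P : Fin q → MvPolynomial (Fin (n + 1)) ℤ)
    (e : Fin q → ℕ) (L : Type) [Field L] [NumberField L] (x : Fin (n + 1) → ℤ) : Prop :=
  ∀ w : HeightOneSpectrum (𝓞 L), Outside S w → ∀ i, ∃ m : ℕ,
    w.valuation L ((eval x (P i) : ℤ) : L) = WithZero.exp (-((e i * m : ℕ) : ℤ))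

open Classical in
/-- The truncated counting function `N^{(1)}(𝒟_J, x)`: the sum of `log N(w) / [L : ℚ]` over the primes
`w` of `L` not above `S` at which `P i (x)` has positive valuation for some `i ∈ J`. -/
noncomputable def truncated {n q : ℕ} (S : Finset ℕ) (P : Fin q → MvPolynomial (Fin (n + 1)) ℤ)
    (J : Finset (Fin q)) (L : Type) [Field L] [NumberField L] (x : Fin (n + 1) → ℤ) : ℝ :=
  (∑ᶠ w : HeightOneSpectrum (𝓞 L),
    if Outside S w ∧ ∃ i ∈ J, w.valuation L ((eval x (P i) : ℤ) : L) < 1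
    then Real.log (Ideal.absNorm w.asIdeal : ℝ) else 0) / Module.finrank ℚ L

/-- The logarithmic discriminant `d(L) = log |disc L| / [L : ℚ]`. -/
noncomputable def logDisc (L : Type) [Field L] [NumberField L] : ℝ :=
  Real.log |(discr L : ℝ)| / Module.finrank ℚ L

/-- the weight `∑ min (k_j, 2)` of the divisors -/
def weight {q : ℕ} (k : Fin q → ℕ) : ℝ := ∑ j, ((min (k j) 2 : ℕ) : ℝ)

/-- the degree of `K_𝒳 + 𝒟_J + δ H_∞` on the root stack with orders `e i` -/
noncomputable def degree (n : ℕ) {q : ℕ} (k e : Fin q → ℕ) (J : Finset (Fin q)) (δ : ℕ) : ℝ :=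
  δ - (n + 1) + ∑ i ∈ J, (k i : ℝ) + ∑ i ∈ Jᶜ, (1 - 1 / (e i : ℝ)) * k i

/-- the points `x` with `x 0 ≠ 0` which are on some `D_i`, or such that for some number field `L`,
some set `S` of primes, some orders `e i` such that `x` comes from an integral point over the
`S`-integers of `L` of the root stack, and some `J`, the inequality
`(θ - ∑_{i ∉ J} k_i / e_i) h(x) ≤ N^{(1)}(𝒟_J, x) + d(L) + ∑_{p ∈ S} log p + c` fails -/
def Failures {n q : ℕ} (P : Fin q → MvPolynomial (Fin (n + 1)) ℤ) (k : Fin q → ℕ) (θ c : ℝ) :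
    Set (Fin (n + 1) → ℤ) :=
  {x | x 0 ≠ 0 ∧ ((∃ i, eval x (P i) = 0) ∨ ∃ (L : Type) (_ : Field L) (_ : NumberField L)
    (S : Finset ℕ) (e : Fin q → ℕ) (J : Finset (Fin q)), (∀ p ∈ S, p.Prime) ∧ (∀ i, 1 ≤ e i) ∧
      Integral S P e L x ∧ truncated S P J L x + logDisc L + ∑ p ∈ S, Real.log (p : ℝ) + c <
        (θ - ∑ i ∈ Jᶜ, (k i : ℝ) / e i) * height x)}

/-- the proportion of the points of `Q` among the points with denominators in `M` of height at most
`B` is at most a negative power of `B`, uniformly in the set `M` -/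
def PowerSaving (n : ℕ) (Q : Set (Fin (n + 1) → ℤ)) : Prop :=
  ∃ δ : ℝ, 0 < δ ∧ ∃ C : ℝ, 0 < C ∧ ∀ B : ℕ, 1 ≤ B → ∀ M : Set ℕ,
    ((Points n M B ∩ Q).ncard : ℝ) ≤ C * (B : ℝ) ^ (-δ) * ((Points n M B).ncard : ℝ)

open Classical in
theorem truncated_eq {n q : ℕ} (S : Finset ℕ) (P : Fin q → MvPolynomial (Fin (n + 1)) ℤ)
    (J : Finset (Fin q)) (L : Type) [Field L] [NumberField L] (x : Fin (n + 1) → ℤ) :
    truncated S P J L x = Run7.h742.ST.trunc S P J L x := by
  unfold truncated Run7.h742.ST.trunc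
  congr 1
  exact finsum_congr fun w => if_congr Iff.rfl rfl rfl

theorem degree_le {n q : ℕ} (k e : Fin q → ℕ) (J : Finset (Fin q)) {δ : ℕ}
    (h : ∑ j, (k j - 2) + δ ≤ n + 1) :
    degree n k e J δ ≤ weight k - ∑ i ∈ Jᶜ, (k i : ℝ) / e i := by
  unfold degree weight
  have h1 : ∑ j, k j + δ ≤ (n + 1) + ∑ j, min (k j) 2 := by
    have h3 : ∑ j, k j = ∑ j, (k j - 2) + ∑ j, min (k j) 2 := by
      rw [← Finset.sum_add_distrib]
      exact Finset.sum_congr rfl fun j _ => by omega
    omega
  have h2 : ∑ j, (k j : ℝ) + δ ≤ (n + 1) + ∑ j, ((min (k j) 2 : ℕ) : ℝ) := by exact_mod_cast h1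
  have h3 : ∑ i ∈ Jᶜ, (1 - 1 / (e i : ℝ)) * k i =
      ∑ i ∈ Jᶜ, (k i : ℝ) - ∑ i ∈ Jᶜ, (k i : ℝ) / e i := by
    rw [← Finset.sum_sub_distrib]
    exact Finset.sum_congr rfl fun i _ => by ring
  have h4 : ∑ i ∈ J, (k i : ℝ) + ∑ i ∈ Jᶜ, (k i : ℝ) = ∑ i, (k i : ℝ) :=
    Finset.sum_add_sum_compl _ _
  linarith

/-- **Vojta's conjecture for root stacks of projective spaces at almost all integral points.** Let
`n ≥ 1`.
(1) The sets `Points n M B` are finite, and the number of the points of one denominator `d ≤ B` is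
at least `c B ^ (n - δ)` for every `δ > 0`.
(2) For all distinct hypersurfaces `D_i` of degree `k i`, all `θ < ∑ min (k i) 2` and all `c`, the
points which are on some `D_i` or for which, for some `L`, `S`, orders `e i` with `x` integral, and
some `J`, the inequality
`(θ - ∑_{i ∉ J} k_i / e_i) h(x) ≤ N^{(1)}(𝒟_J, x) + d(L) + ∑_{p ∈ S} log p + c` fails, form a
power-saving part of the points, uniformly in the set `M` of the denominators.
(3) There is one set `E` of relative density zero among the points with denominators in `M`,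
uniformly in `M`, such that for all such hypersurfaces and all `θ < ∑ min (k i) 2` the inequality holds
with a constant `C` depending on the hypersurfaces and on `θ`, for all `x` outside `E`, ALL number
fields `L`, ALL finite sets `S` of primes, ALL orders `e i` for which `x` comes from an integral point
over the `S`-integers of `L`, and ALL `J`.
(4) In particular, outside `E`, for all `ε > 0`
`h_{K_𝒳 + 𝒟_J + δ H_∞}(x) - ε h(x) ≤ N^{(1)}(𝒟_J, x) + d(L) + ∑_{p ∈ S} log p + C` if `δ = 0` and
`∑ max (k i - 2, 0) ≤ n + 1`, or `δ = 1` and `∑ max (k i - 2, 0) ≤ n`. -/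
theorem result : ∀ n : ℕ, 1 ≤ n →
    ((∀ (M : Set ℕ) (B : ℕ), (Points n M B).Finite) ∧
      (∀ δ : ℝ, 0 < δ → ∃ c : ℝ, 0 < c ∧ ∀ B d : ℕ, 1 ≤ d → d ≤ B →
        c * (B : ℝ) ^ ((n : ℝ) - δ) ≤ ((Points n {d} B).ncard : ℝ))) ∧
    (∀ (q : ℕ) (P : Fin q → MvPolynomial (Fin (n + 1)) ℤ) (k : Fin q → ℕ), IsDivisor P k →
      ∀ θ : ℝ, θ < weight k → ∀ c : ℝ, PowerSaving n (Failures P k θ c)) ∧
    ∃ E : Set (Fin (n + 1) → ℤ),
      (∀ ε : ℝ, 0 < ε → ∃ B₀ : ℕ, ∀ B : ℕ, B₀ ≤ B → ∀ M : Set ℕ,
        ((Points n M B ∩ E).ncard : ℝ) ≤ ε * ((Points n M B).ncard : ℝ)) ∧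
      ∀ (q : ℕ) (P : Fin q → MvPolynomial (Fin (n + 1)) ℤ) (k : Fin q → ℕ), IsDivisor P k →
        (∀ θ : ℝ, θ < weight k → ∃ C : ℝ, ∀ x : Fin (n + 1) → ℤ, x 0 ≠ 0 → x ∉ E →
          (∀ i, eval x (P i) ≠ 0) → ∀ (L : Type) [Field L] [NumberField L] (S : Finset ℕ)
            (e : Fin q → ℕ) (J : Finset (Fin q)), (∀ p ∈ S, p.Prime) → (∀ i, 1 ≤ e i) →
            Integral S P e L x → (θ - ∑ i ∈ Jᶜ, (k i : ℝ) / e i) * height x ≤
              truncated S P J L x + logDisc L + ∑ p ∈ S, Real.log (p : ℝ) + C) ∧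
        ∀ δ : ℕ, δ ≤ 1 → ∑ j, (k j - 2) + δ ≤ n + 1 → ∀ ε : ℝ, 0 < ε → ∃ C : ℝ,
          ∀ x : Fin (n + 1) → ℤ, x 0 ≠ 0 → x ∉ E → (∀ i, eval x (P i) ≠ 0) →
            ∀ (L : Type) [Field L] [NumberField L] (S : Finset ℕ) (e : Fin q → ℕ)
              (J : Finset (Fin q)), (∀ p ∈ S, p.Prime) → (∀ i, 1 ≤ e i) → Integral S P e L x →
              degree n k e J δ * height x - ε * height x ≤
                truncated S P J L x + logDisc L + ∑ p ∈ S, Real.log (p : ℝ) + C := by
  intro n hn
  refine ⟨⟨fun M B => Run7.h742.VI.Pts_finite n M B, fun δ hδ => Run7.h742.VI.Pts_lower hn hδ⟩,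
    fun q P k hD θ hθ c => ?_, ?_⟩
  · have hC : Run7.h742.VI.Comps P k := ⟨hD.hP, hD.irreducible, hD.distinct, hD.affine⟩
    have h1 := Run7.h742.ST.fail_ps hn P k hC hθ c
    refine h1.mono ?_
    rintro x ⟨hx, h | ⟨L, i1, i2, S, e, J, hS, he, hint, hlt⟩⟩
    · exact ⟨hx, Or.inl h⟩
    · rw [truncated_eq] at hlt
      exact ⟨hx, Or.inr ⟨L, i1, i2, S, e, J, hS, he, hint, hlt⟩⟩
  · obtain ⟨E, hE, hall⟩ := Run7.h742.ST.fail_univ hn
    refine ⟨E, hE, fun q P k hD => ?_⟩
    have hC : Run7.h742.VI.Comps P k := ⟨hD.hP, hD.irreducible, hD.distinct, hD.affine⟩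
    refine ⟨fun θ hθ => ?_, fun δ _ hk ε hε => ?_⟩
    · obtain ⟨C, h⟩ := hall q P k hC θ hθ
      refine ⟨C, fun x hx hxE hne L _ _ S e J hS he hint => ?_⟩
      rw [truncated_eq]
      exact h x hx hxE hne L S e J hS he hint
    · obtain ⟨C, h⟩ := hall q P k hC (weight k - ε) (by
        show weight k - ε < weight k
        linarith)
      refine ⟨C, fun x hx hxE hne L _ _ S e J hS he hint => ?_⟩
      have h1 := h x hx hxE hne L S e J hS he hint
      have h2 := degree_le k e J hk
      have h3 : 0 ≤ height x := Real.log_natCast_nonneg _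
      have h4 : degree n k e J δ * height x - ε * height x ≤
          (weight k - ε - ∑ i ∈ Jᶜ, (k i : ℝ) / e i) * height x := by
        rw [← sub_mul]
        exact mul_le_mul_of_nonneg_right (by linarith) h3
      rw [truncated_eq]
      exact h4.trans h1

end Pool.Agent.Results.MP_a41896_nt.IntegralPointsAllFields
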