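import Mathlib
import Pool.Agent.Run7.h720.Root

set_option autoImplicit false

/-!
# The inequality of Vojta for short integral points on root stacks over smooth pairs over number fields

`K` is a number field, `X` a smooth projective variety of dimension `n` in `ℙ^(n + s)` with the
equations `G k = 0` (any number of them), `D_1, …, D_q` are divisors of `X` the sum of which has strict
normal crossings, `D_i` the subvariety of `X` with the equations `F i j = 0`, `j < w`, forms of degree
`d i`.

The stack `𝒳` is the root stack of `X` along the `D_i`, `i ∈ I`, with the multiplicities `μ i`: its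
coarse moduli space is `X`, its canonical divisor is `K + ∑ i ∈ I, (1 - 1 / μ i) D_i`. These are the
smooth proper Deligne-Mumford stacks with trivial generic stabiliser whose coarse space is `X` and whose
stacky locus is a strict normal crossings divisor. A rational point of `X` off the `D_i` is an
integral point of `𝒳` over the `T`-integers if and only if its intersection numbers with the
`D_i`, `i ∈ I`, are divisible by `μ i` at all primes outside `T`. The divisor `𝒟` of the conjecture
is the sum of the `D_i`, `i ∉ I`.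

Let `Γ` be a finitely generated subgroup of the multiplicative group of `K`. The integral points `x`
considered are short: they have coordinate vectors which are sums of `r` vectors with entries of height
at most `B H(x) ^ δ`, multiplied by elements of `Γ`; and there is a number `ρ` of the same kind which
has simple zeros, exactly at the primes at which `x` meets one of the `D_i` (up to an arbitrary
cofactor `τ`, see below).
-/

namespace Pool.Agent.Results.MP_a41896_nt.ShortPointsOfRootStacks

open MvPolynomial NumberField IsDedekindDomain Height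
open Pool.Agent.K1H83.VN

section
variable {K : Type} [Field K]

/-- `X` is smooth of codimension `s` and `D` has strict normal crossings on `X`: over every extension
field, at every point `z` of `X`, for suitable `s` equations of `X` and one equation of each component
of `D` through `z`, all gradients at `z` are linearly independent. -/
def SmoothPair {m g q w : ℕ} (s : ℕ) (G : Fin g → MvPolynomial (Fin m) K)
    (F : Fin q → Fin w → MvPolynomial (Fin m) K) : Prop :=
  ∀ (L : Type) [Field L] [Algebra K L] (z : Fin m → L), z ≠ 0 → (∀ i, aeval z (G i) = 0) →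
    ∃ (a : Fin s → Fin g) (b : Fin q → Fin w), LinearIndependent L
      (Sum.elim (fun i => fun y => aeval z (pderiv y (G (a i))))
        (fun i : {i : Fin q // ∀ j, aeval z (F i j) = 0} =>
          fun y => aeval z (pderiv y (F i.1 (b i.1)))))

/-- The exceptional set given by the forms `Φ J` in `n + 1` variables, one for each choice `J` of
`n + 1` coordinates: `x` belongs to it if for all `J` the form `Φ J` vanishes at the coordinates
`x_J`. It is closed and, if all `Φ J` are different from zero, it contains no component of a variety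
`X` of dimension `n`: on the cone over a variety of dimension `n` some `n + 1` coordinates are
algebraically independent. -/
def Exceptional {m n : ℕ} (Φ : (Fin (n + 1) → Fin m) → MvPolynomial (Fin (n + 1)) K)
    (x : Fin m → K) : Prop :=
  ∀ J, aeval (fun k => x (J k)) (Φ J) = 0

/-- All `Φ J` are forms different from zero. -/
def AreForms {m n : ℕ} (Φ : (Fin (n + 1) → Fin m) → MvPolynomial (Fin (n + 1)) K) : Prop :=
  ∀ J, Φ J ≠ 0 ∧ ∃ k, (Φ J).IsHomogeneous k

/-- The columns of `A` are a basis of the tangent space at `x` of the affine cone over the variety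
with the equations `G k = 0` (the vectors orthogonal to all gradients of equations), the variety being
smooth of dimension `n` at `x`. -/
def IsTangentBasis {m n g : ℕ} (G : Fin g → MvPolynomial (Fin m) K) (x : Fin m → K)
    (A : Matrix (Fin m) (Fin (n + 1)) K) : Prop :=
  LinearIndependent K (fun (c : Fin (n + 1)) (j : Fin m) => A j c) ∧
    ∀ k c, ∑ j, aeval x (pderiv j (G k)) * A j c = 0

variable [NumberField K]

/-! ### Heights, relative to `K` -/

/-- The local height `λ_{Z,v}(x)` at the prime `v` of the subvariety `Z` with the equations `F j = 0`,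
forms of degree `d`: the intersection multiplicity `n_v(Z, x)` times `log N(v)`. -/
noncomputable def localHeight {m w : ℕ} (F : Fin w → MvPolynomial (Fin m) K) (d : ℕ)
    (v : HeightOneSpectrum (𝓞 K)) (x : Fin m → K) : ℝ :=
  Real.log ((⨆ i, FinitePlace.mk v (x i)) ^ d / ⨆ j, FinitePlace.mk v (aeval x (F j)))

/-- `log N(v)` -/
noncomputable def logNorm (v : HeightOneSpectrum (𝓞 K)) : ℝ :=
  Real.log (Ideal.absNorm v.asIdeal : ℝ)

/-- `x` is an integral point of the root stack over the ring of `T`-integers: at the primes outside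
`T` the intersection multiplicity with `D_i` is divisible by `μ i`, for all `i ∈ I`. -/
def IsIntegral {m q w : ℕ} (T : Set (HeightOneSpectrum (𝓞 K)))
    (F : Fin q → Fin w → MvPolynomial (Fin m) K) (d : Fin q → ℕ) (I : Finset (Fin q))
    (μ : Fin q → ℕ) (x : Fin m → K) : Prop :=
  ∀ i ∈ I, ∀ v ∉ T, ∃ k : ℕ, localHeight (F i) (d i) v x = μ i * k * logNorm v

open Classical in
/-- The truncated counting function `N^(1)(𝒟, x)` of the divisor `𝒟`, the sum of the `D_i`, `i ∉ I`:
the sum of `log N(v)` over the primes `v` outside `T` at which `x` meets `𝒟`. -/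
noncomputable def truncatedCounting {m q w : ℕ} (T : Set (HeightOneSpectrum (𝓞 K)))
    (F : Fin q → Fin w → MvPolynomial (Fin m) K) (d : Fin q → ℕ) (I : Finset (Fin q))
    (x : Fin m → K) : ℝ :=
  ∑ᶠ v : HeightOneSpectrum (𝓞 K),
    if v ∉ T ∧ ∃ i ∉ I, 0 < localHeight (F i) (d i) v x then logNorm v else 0

/-- The height `h_Z(x)` with respect to the subvariety `Z` with the equations `F j = 0`, forms of
degree `d`: the sum of all local heights is `d h(x)` minus the height of the vector of the
`F j (x)`. -/
noncomputable def componentHeight {m w : ℕ} (F : Fin w → MvPolynomial (Fin m) K) (d : ℕ)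
    (x : Fin m → K) : ℝ :=
  d * logHeight x - logHeight (fun j => aeval x (F j))

/-- The height `h_K(x)` for the canonical class `K` of `X`. The Gauss map `γ` sends a point of `X` to
its embedded tangent space, `γ^* O(1) = K + (n + 1) H` for the hyperplane class `H`, and `h_K(x)` is
the height of `γ(x)` (whose Plücker coordinates are the maximal minors of `A`) minus
`(n + 1) h(x)`. -/
noncomputable def canonicalHeight {m n : ℕ} (x : Fin m → K) (A : Matrix (Fin m) (Fin (n + 1)) K) :
    ℝ :=
  logHeight (fun J : Fin (n + 1) → Fin m => (A.submatrix J id).det) - (n + 1) * logHeight x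

/-- The height `h_(K_𝒳(𝒟))(x)`, `K_𝒳(𝒟) = K + ∑ i ∈ I, (1 - 1 / μ i) D_i + ∑ i ∉ I, D_i`. -/
noncomputable def stackHeight {m n q w : ℕ} (F : Fin q → Fin w → MvPolynomial (Fin m) K)
    (d : Fin q → ℕ) (I : Finset (Fin q)) (μ : Fin q → ℕ) (x : Fin m → K)
    (A : Matrix (Fin m) (Fin (n + 1)) K) : ℝ :=
  canonicalHeight x A + ∑ i, (if i ∈ I then 1 - 1 / (μ i : ℝ) else 1) *
    componentHeight (F i) (d i) x

/-! ### Short points -/

/-- `ord_v (z)` times the logarithm of the norm of the prime `v` -/
noncomputable def ord (v : HeightOneSpectrum (𝓞 K)) (z : K) : ℝ := -Real.log (FinitePlace.mk v z)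

/-- The counting function of the zeros of `z` outside `T`: the sum of the `ord v z` over the primes
`v` outside `T`. -/
noncomputable def counting (T : Set (HeightOneSpectrum (𝓞 K))) (z : K) : ℝ :=
  ∑ᶠ (v : HeightOneSpectrum (𝓞 K)) (_ : v ∉ T), ord v z

/-- `z` is a sum of `r` terms `c * γ` with `γ` in `Γ` and `c` of (multiplicative, relative) height at
most `R`. -/
def IsShort (Γ : Subgroup Kˣ) (r : ℕ) (R : ℝ) (z : K) : Prop :=
  ∃ (c : Fin r → K) (γ : Fin r → Kˣ), (∀ j, γ j ∈ Γ) ∧ (∀ j, mulHeight₁ (c j) ≤ R) ∧
    z = ∑ j, c j * (γ j : K)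

/-- The vector `x` is a sum of `r` terms `γ • c` with `γ` in `Γ` and `c` a vector with entries of
(multiplicative, relative) height at most `R`. -/
def IsShortPoint {m : ℕ} (Γ : Subgroup Kˣ) (r : ℕ) (R : ℝ) (x : Fin m → K) : Prop :=
  ∃ (c : Fin r → Fin m → K) (γ : Fin r → Kˣ), (∀ j, γ j ∈ Γ) ∧ (∀ j i, mulHeight₁ (c j i) ≤ R) ∧
    ∀ i, x i = ∑ j, c j i * (γ j : K)

/-- The numbers `ρ` and `τ`, integral outside `T`, control the intersection of the point `x` with
`D = D_1 + ⋯ + D_q` outside `T`: the multiplicities are at most those of `ρ ^ M * τ`, and `ρ` has only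
simple zeros outside `T`, at primes at which `x` meets `D`. -/
def Controls {m q w : ℕ} (T : Set (HeightOneSpectrum (𝓞 K)))
    (F : Fin q → Fin w → MvPolynomial (Fin m) K) (d : Fin q → ℕ) (M : ℕ) (x : Fin m → K)
    (ρ τ : K) : Prop :=
  ρ ≠ 0 ∧ τ ≠ 0 ∧ ∀ v ∉ T, 0 ≤ ord v ρ ∧ 0 ≤ ord v τ ∧
    ∑ i, localHeight (F i) (d i) v x ≤ M * ord v ρ + ord v τ ∧
    ord v ρ ≤ min (logNorm v) (∑ i, localHeight (F i) (d i) v x)

end

/-- **Main theorem.** Let `X` be a smooth projective variety of dimension `n ≥ 1` over the number field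
`K` in `ℙ^(n + s)`, `D_1, …, D_q` divisors of `X` the sum of which has strict normal crossings, `I` a set
of indices, `𝒳` the root stack of `X` along the `D_i`, `i ∈ I`, with the multiplicities `μ i ≥ 1`, `𝒟` the
sum of the `D_i`, `i ∉ I`, `T` a finite set of primes of `K`, `Γ` a finitely generated subgroup of the
multiplicative group of `K`, `r` and `M` natural numbers, `B` and `ε > 0` real numbers. There are a
proper closed subset of `X` (see `Exceptional`), `δ > 0` and `C` with
`h_(K_𝒳(𝒟))(x) ≤ N^(1)(𝒟, x) + N_T(τ) + ε h(x) + C`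
for all integral points `x` of `𝒳` over the `T`-integers off this closed subset and the `D_i` and all
numbers `ρ`, `τ` which control the intersection of `x` and the `D_i` (see `Controls`), such that `x` and
`ρ` are sums of `r` terms with coefficients of height at most `B H(x) ^ δ`. -/
theorem result (K : Type) [Field K] [NumberField K] (n s g q w : ℕ) (hn : 1 ≤ n)
    (G : Fin g → MvPolynomial (Fin (n + s + 1)) K) (e : Fin g → ℕ)
    (hG : ∀ k, (G k).IsHomogeneous (e k))
    (F : Fin q → Fin w → MvPolynomial (Fin (n + s + 1)) K) (d : Fin q → ℕ)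
    (hF : ∀ i j, (F i j).IsHomogeneous (d i)) (hsm : SmoothPair s G F)
    (I : Finset (Fin q)) (μ : Fin q → ℕ) (hμ : ∀ i ∈ I, 1 ≤ μ i)
    (T : Set (HeightOneSpectrum (𝓞 K))) (hT : T.Finite) (Γ : Subgroup Kˣ) (hΓ : Γ.FG)
    (r M : ℕ) (B ε : ℝ) (hε : 0 < ε) :
    ∃ (Φ : (Fin (n + 1) → Fin (n + s + 1)) → MvPolynomial (Fin (n + 1)) K) (δ C : ℝ),
      AreForms Φ ∧ 0 < δ ∧ ∀ (x : Fin (n + s + 1) → K) (ρ τ : K), x ≠ 0 →
        (∀ k, aeval x (G k) = 0) → ¬ Exceptional Φ x → (∀ i, ∃ j, aeval x (F i j) ≠ 0) →
        IsIntegral T F d I μ x → Controls T F d M x ρ τ →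
        IsShortPoint Γ r (B * mulHeight x ^ δ) x → IsShort Γ r (B * mulHeight x ^ δ) ρ →
        ∀ A : Matrix (Fin (n + s + 1)) (Fin (n + 1)) K, IsTangentBasis G x A →
          stackHeight F d I μ x A ≤
            truncatedCounting T F d I x + counting T τ + ε * logHeight x + C := by
  classical
  have hJ := fun J : Fin (n + 1) → Fin (n + s + 1) =>
    Pool.Agent.Run7.h720.var_main K Γ hΓ T hT hn G F hsm (by omega) e hG d hF J r M B ε hε
  choose Φ k δ C hΦ0 hΦh hδ hmain using hJ
  obtain ⟨C2, hC2⟩ := Pool.Agent.Run7.h720.root_count T hT F d hF I μ hμ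
  have hne : Nonempty (Fin (n + 1) → Fin (n + s + 1)) := ⟨fun _ => 0⟩
  obtain ⟨J1, hJ1⟩ := Finite.exists_min δ
  refine ⟨Φ, δ J1, ∑ J, |C J| + C2, fun J => ⟨hΦ0 J, k J, hΦh J⟩, hδ J1, ?_⟩
  intro x ρ τ hx0 hxG hex hxF hint hctl hsx hsρ A hA
  obtain ⟨hρ0, hτ0, hctl⟩ := hctl
  unfold Exceptional at hex
  push Not at hex
  obtain ⟨J, hJ⟩ := hex
  have hord : ∀ (v : HeightOneSpectrum (𝓞 K)) (z : K), z ≠ 0 → 0 ≤ ord v z →
      Pool.Agent.W180.OP.fv v z ≤ 1 := by
    intro v z hz hv
    have h1 : ord v z = -Real.log (Pool.Agent.W180.OP.fv v z) := rfl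
    rw [h1] at hv
    by_contra hcon
    push Not at hcon
    have := Real.log_pos hcon
    linarith
  have key := hmain J x ρ τ A hx0 hxG hJ hxF hρ0 hτ0 (fun v hv => hord v ρ hρ0 (hctl v hv).1)
    (fun v hv => hord v τ hτ0 (hctl v hv).2.1)
    (Pool.Agent.Run7.h720.pshort_mono hx0 (one_le_mulHeight x) (hJ1 J) hsx)
    (Pool.Agent.Run7.h720.short_mono' hρ0 (one_le_mulHeight x) (hJ1 J) hsρ) (by
      intro v hv
      have h1 := (hctl v hv).2.2.1
      have h2 : (M : ℝ) * ord v ρ + ord v τ =
          -(M * Real.log (Pool.Agent.W180.OP.fv v ρ) +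
            Real.log (Pool.Agent.W180.OP.fv v τ)) := by
        have e1 : ord v ρ = -Real.log (Pool.Agent.W180.OP.fv v ρ) := rfl
        have e2 : ord v τ = -Real.log (Pool.Agent.W180.OP.fv v τ) := rfl
        rw [e1, e2]
        ring
      rw [h2] at h1
      exact h1) hA.1 hA.2
  have hcount := hC2 x ρ hx0 hxF hρ0 hint fun v hv => (hctl v hv).2.2.2
  have hcnt : ∀ x : K, Pool.Agent.Run7.h720.cnt T x = counting T x := fun x => rfl
  rw [hcnt, hcnt] at key
  rw [hcnt] at hcount
  have htr : (∑ᶠ v : HeightOneSpectrum (𝓞 K),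
      if v ∉ T ∧ ∃ i ∉ I, 0 < Pool.Agent.Run7.h720.lh (F i) (d i)
          (Pool.Agent.W180.OP.fv v) x then
        Real.log (Ideal.absNorm v.asIdeal : ℝ) else 0) = truncatedCounting T F d I x := by
    unfold truncatedCounting
    refine finsum_congr fun v => ?_
    by_cases h : v ∉ T ∧ ∃ i ∉ I, 0 < localHeight (F i) (d i) v x
    · rw [if_pos h]
      exact if_pos h
    · rw [if_neg h]
      exact if_neg h
  rw [htr] at hcount
  have hCJ : C J ≤ ∑ J, |C J| := (le_abs_self _).trans
    (Finset.single_le_sum (f := fun J => |C J|) (fun J _ => abs_nonneg _) (Finset.mem_univ J))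
  have hsum : ∑ i, (if i ∈ I then 1 - 1 / (μ i : ℝ) else 1) * componentHeight (F i) (d i) x =
      ∑ i, componentHeight (F i) (d i) x -
        ∑ i ∈ I, (μ i : ℝ)⁻¹ * componentHeight (F i) (d i) x := by
    have e1 : ∑ i ∈ I, (μ i : ℝ)⁻¹ * componentHeight (F i) (d i) x =
        ∑ i, if i ∈ I then (μ i : ℝ)⁻¹ * componentHeight (F i) (d i) x else 0 := by
      rw [Finset.sum_ite_mem, Finset.univ_inter]
    rw [e1, ← Finset.sum_sub_distrib]
    refine Finset.sum_congr rfl fun i _ => ?_
    split_ifs
    · rw [one_div]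
      ring
    · ring
  unfold stackHeight
  rw [hsum]
  unfold canonicalHeight
  have e2 : ∀ i, componentHeight (F i) (d i) x =
      d i * logHeight x - logHeight (fun j => aeval x (F i j)) := fun i => rfl
  simp only [e2]
  linarith

end Pool.Agent.Results.MP_a41896_nt.ShortPointsOfRootStacks
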